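import Pool.Agent.Q213.GD.Metric

set_option autoImplicit false

/-! Limit points of slowly varying sequences in uniform spaces along geometric sequences. -/

open MeasureTheory Set Filter
open scoped Topology Uniformity

namespace Pool.Agent.Q213.GD

/-- a sequence of long windows is hit infinitely often -/
theorem hit {κ : ℝ} (hκ : 0 < κ) (m : ℕ → ℕ) (hm : ∀ i, i ≤ m i) :
    ∀ᵐ v : ℝ, 0 < v → ∀ c : ℝ, 0 < c → ∀ n : ℕ → ℕ,
      Tendsto (fun k => (n k : ℝ) / Real.exp v⁻¹ ^ k) atTop (𝓝 c) →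
        ∃ᶠ k in atTop, ∃ i, m i ≤ n k ∧ (n k : ℝ) ≤ (1 + κ) * m i := by
  set ℓ : ℝ := Real.log (1 + κ) with hℓ
  have hℓ0 : 0 < ℓ := Real.log_pos (by linarith)
  set T : ℕ → ℝ := fun i => Real.log (m (i + 1)) + ℓ / 4 with hT
  have hmi : ∀ i : ℕ, (i : ℝ) + 1 ≤ m (i + 1) := fun i => by
    have := hm (i + 1)
    exact_mod_cast this
  have hmt : Tendsto (fun i => (m (i + 1) : ℝ)) atTop atTop :=
    tendsto_atTop_mono (fun i => by
      have := hmi i
      show (i : ℝ) ≤ m (i + 1)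
      linarith) tendsto_natCast_atTop_atTop
  have hTt : Tendsto T atTop atTop :=
    tendsto_atTop_add_const_right _ _ (Real.tendsto_log_atTop.comp hmt)
  filter_upwards [ae_dense T hTt] with v hv hv0 c hc n hn
  have hα : 0 < v⁻¹ := inv_pos.2 hv0
  have hlim : Tendsto (fun k => Real.log ((n k : ℝ) / Real.exp v⁻¹ ^ k)) atTop
      (𝓝 (Real.log c)) := (Real.continuousAt_log hc.ne').tendsto.comp hn
  have hev1 : ∀ᶠ k in atTop, |Real.log ((n k : ℝ) / Real.exp v⁻¹ ^ k) - Real.log c| < ℓ / 4 := by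
    have := hlim.eventually (Metric.ball_mem_nhds _ (show 0 < ℓ / 4 by positivity))
    filter_upwards [this] with k hk
    rwa [Real.dist_eq] at hk
  have hev2 : ∀ᶠ k in atTop, 0 < (n k : ℝ) / Real.exp v⁻¹ ^ k := hn.eventually_const_lt hc
  obtain ⟨k1, hk1⟩ := eventually_atTop.1 (hev1.and hev2)
  rw [frequently_atTop]
  intro K
  rw [← inv_inv v] at hv
  obtain ⟨i, k, -, hk, hlo, hhi⟩ := hv.hits hTt hα (Real.log c) (show 0 < ℓ / 2 by positivity)
    (max K k1) 0
  refine ⟨k, (le_max_left _ _).trans hk, i + 1, ?_⟩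
  obtain ⟨g1, g2⟩ := hk1 k ((le_max_right _ _).trans hk)
  have hxk : 0 < Real.exp v⁻¹ ^ k := by positivity
  have hnk : 0 < (n k : ℝ) := by
    rcases (Nat.cast_nonneg (n k) : (0 : ℝ) ≤ n k).eq_or_lt with e | e
    · rw [← e, zero_div] at g2; exact absurd g2 (lt_irrefl _)
    · exact e
  rw [Real.log_div hnk.ne' hxk.ne', Real.log_pow, Real.log_exp, abs_lt] at g1
  have hmi0 : 0 < (m (i + 1) : ℝ) := by
    have := hmi i
    have : (0 : ℝ) ≤ i := Nat.cast_nonneg i
    linarith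
  rw [hT] at hlo hhi
  simp only at hlo hhi
  constructor
  · have : Real.log (m (i + 1)) < Real.log (n k) := by linarith
    have := (Real.log_lt_log_iff hmi0 hnk).1 this
    have : m (i + 1) < n k := by exact_mod_cast this
    exact this.le
  · have h3 : Real.log (n k) < Real.log ((1 + κ) * m (i + 1)) := by
      rw [Real.log_mul (by linarith) hmi0.ne', ← hℓ]
      linarith
    exact ((Real.log_lt_log_iff hnk (by positivity)).1 h3).le

/-- transfer from `v = 1 / log x` to `x` -/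
theorem ae_transfer {P : ℝ → Prop} (h : ∀ᵐ v : ℝ, 0 < v → P (Real.exp v⁻¹)) :
    ∀ᵐ x : ℝ, 1 < x → P x := by
  have h1 : volume {v : ℝ | ¬ (0 < v → P (Real.exp v⁻¹))} = 0 := ae_iff.1 h
  have h2 : volume ((fun v : ℝ => Real.exp v⁻¹) '' {v : ℝ | ¬ (0 < v → P (Real.exp v⁻¹))}) = 0 := by
    apply addHaar_image_eq_zero_of_differentiableOn_of_addHaar_eq_zero _ _ h1
    intro v hv
    rw [mem_ofPred_eq, Classical.not_imp] at hv
    have : DifferentiableAt ℝ (fun v : ℝ => Real.exp v⁻¹) v :=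
      (differentiableAt_inv hv.1.ne').exp
    exact this.differentiableWithinAt
  rw [ae_iff]
  refine measure_mono_null ?_ h2
  intro x hx
  rw [mem_ofPred_eq, Classical.not_imp] at hx
  have hlog : 0 < Real.log x := Real.log_pos hx.1
  refine ⟨(Real.log x)⁻¹, ?_, ?_⟩
  · rw [mem_ofPred_eq, Classical.not_imp, inv_inv, Real.exp_log (by linarith [hx.1])]
    exact ⟨inv_pos.2 hlog, hx.2⟩
  · simp only
    rw [inv_inv, Real.exp_log (by linarith [hx.1])]

/-- slow variation in a uniform space -/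
def Slow {X : Type*} [UniformSpace X] (u : ℕ → X) : Prop :=
  ∀ V ∈ 𝓤 X, ∃ κ : ℝ, 0 < κ ∧ ∃ N : ℕ, ∀ n m : ℕ, N ≤ n → n ≤ m → (m : ℝ) ≤ (1 + κ) * n →
    (u n, u m) ∈ V

/-- slow variation may be tested in the coordinates -/
theorem slow_pi {ι : Type*} {X : ι → Type*} [∀ i, UniformSpace (X i)] {u : ℕ → ∀ i, X i}
    (h : ∀ i, Slow fun n => u n i) : Slow u := by
  let F : Filter ((∀ i, X i) × (∀ i, X i)) :=
    { sets := {V | ∃ κ : ℝ, 0 < κ ∧ ∃ N : ℕ, ∀ n m : ℕ, N ≤ n → n ≤ m →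
        (m : ℝ) ≤ (1 + κ) * n → (u n, u m) ∈ V}
      univ_sets := ⟨1, one_pos, 0, fun _ _ _ _ _ => mem_univ _⟩
      sets_of_superset := by
        rintro V W ⟨κ, hκ, N, hN⟩ hVW
        exact ⟨κ, hκ, N, fun n m h1 h2 h3 => hVW (hN n m h1 h2 h3)⟩
      inter_sets := by
        rintro V W ⟨κ, hκ, N, hN⟩ ⟨κ', hκ', N', hN'⟩
        refine ⟨min κ κ', lt_min hκ hκ', max N N', fun n m h1 h2 h3 => ?_⟩
        have hn0 : (0 : ℝ) ≤ n := Nat.cast_nonneg n
        refine ⟨hN n m ((le_max_left _ _).trans h1) h2 (h3.trans ?_),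
          hN' n m ((le_max_right _ _).trans h1) h2 (h3.trans ?_)⟩
        · exact mul_le_mul_of_nonneg_right (by linarith [min_le_left κ κ']) hn0
        · exact mul_le_mul_of_nonneg_right (by linarith [min_le_right κ κ']) hn0 }
  have key : F ≤ 𝓤 (∀ i, X i) := by
    rw [Pi.uniformity]
    refine le_iInf fun i => ?_
    rintro V ⟨W, hW, hWV⟩
    obtain ⟨κ, hκ, N, hN⟩ := h i W hW
    exact ⟨κ, hκ, N, fun n m h1 h2 h3 => hWV (hN n m h1 h2 h3)⟩
  intro V hV
  exact key hV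

theorem geometric_joint {X : Type*} [UniformSpace X] [IsCountablyGenerated (𝓤 X)]
    [SecondCountableTopology X] {u : ℕ → X} (hu : Slow u) :
    ∀ᵐ x : ℝ, 1 < x → ∀ c : ℝ, 0 < c → ∀ n : ℕ → ℕ,
      Tendsto (fun k => (n k : ℝ) / x ^ k) atTop (𝓝 c) →
        {y | MapClusterPt y atTop (fun k => u (n k))} = {y | MapClusterPt y atTop u} := by
  apply ae_transfer (P := fun x => ∀ c : ℝ, 0 < c → ∀ n : ℕ → ℕ,
      Tendsto (fun k => (n k : ℝ) / x ^ k) atTop (𝓝 c) →
        {y | MapClusterPt y atTop (fun k => u (n k))} = {y | MapClusterPt y atTop u})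
  obtain ⟨D, hD1, hD2, hD3⟩ :=
    (TopologicalSpace.IsSeparable.of_separableSpace
      {y | MapClusterPt y atTop u}).exists_countable_dense_subset
  obtain ⟨V, hV⟩ := (𝓤 X).exists_antitone_basis
  have h1 : ∀ᵐ v : ℝ, ∀ y ∈ D, ∀ j : ℕ, 0 < v → ∀ c : ℝ, 0 < c → ∀ n : ℕ → ℕ,
      Tendsto (fun k => (n k : ℝ) / Real.exp v⁻¹ ^ k) atTop (𝓝 c) →
        ∃ᶠ k in atTop, (y, u (n k)) ∈ V j := by
    rw [ae_ball_iff hD2]
    intro y hy
    rw [ae_all_iff]
    intro j
    obtain ⟨W, hW, hWV⟩ := comp_mem_uniformity_sets (hV.1.mem_of_mem (i := j) trivial)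
    obtain ⟨κ, hκ, N, hN⟩ := hu W hW
    have h2 : ∃ᶠ n in atTop, (y, u n) ∈ W :=
      mapClusterPt_iff_frequently.1 (hD1 hy) _ (UniformSpace.ball_mem_nhds y hW)
    have h3 : ∀ i : ℕ, ∃ m : ℕ, i ≤ m ∧ N ≤ m ∧ (y, u m) ∈ W := by
      intro i
      obtain ⟨m, hm, hm'⟩ := frequently_atTop.1 h2 (max i N)
      exact ⟨m, (le_max_left _ _).trans hm, (le_max_right _ _).trans hm, hm'⟩
    choose m hm1 hm2 hm3 using h3
    filter_upwards [hit hκ m hm1] with v hv hv0 c hc n hn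
    refine (hv hv0 c hc n hn).mono ?_
    rintro k ⟨i, hi1, hi2⟩
    exact hWV ⟨u (m i), hm3 i, hN (m i) (n k) (hm2 i) hi1 hi2⟩
  filter_upwards [h1] with v hv hv0 c hc n hn
  apply Subset.antisymm
  · intro y hy
    have hnt : Tendsto n atTop atTop := by
      have hx : 1 < Real.exp v⁻¹ := Real.one_lt_exp_iff.2 (inv_pos.2 hv0)
      have h2 := hn.pos_mul_atTop hc (tendsto_pow_atTop_atTop_of_one_lt hx)
      have h3 : Tendsto (fun k => (n k : ℝ)) atTop atTop := by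
        refine h2.congr fun k => ?_
        have : Real.exp v⁻¹ ^ k ≠ 0 := by positivity
        field_simp
      exact tendsto_natCast_atTop_iff.1 h3
    exact MapClusterPt.of_comp hnt hy
  · have hcl : IsClosed {y | MapClusterPt y atTop (fun k => u (n k))} :=
      isClosed_setOfPred_clusterPt
    refine hD3.trans (closure_minimal ?_ hcl)
    intro y hy
    rw [mem_ofPred_eq, mapClusterPt_iff_frequently]
    intro s hs
    rw [UniformSpace.mem_nhds_iff] at hs
    obtain ⟨W, hW, hWs⟩ := hs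
    obtain ⟨j, -, hj⟩ := hV.1.mem_iff.1 hW
    exact (hv y hy j hv0 c hc n hn).mono fun k hk => hWs (hj hk)

end Pool.Agent.Q213.GD
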