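import Pool.Agent.Q213.GD.Joint
import Pool.Agent.H818R2.Kiss4

set_option autoImplicit false

/-! Exponents of spherical codes vary slowly; convergence along geometric sequences. -/

open MeasureTheory Set Filter
open scoped Topology Uniformity

namespace Pool.Agent.Q213.GD

open Pool.Agent.H818R2

lemma slow_of_steps {u : ℕ → ℝ} {B : ℝ} {N : ℕ} (hB : 0 ≤ B)
    (h : ∀ n, N ≤ n → |u (n + 1) - u n| ≤ B / ((n : ℝ) + 1)) : Slow u := by
  intro V hV
  obtain ⟨ε, hε, hεV⟩ := Metric.mem_uniformity_dist.1 hV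
  refine ⟨ε / (B + 1), by positivity, max N 1, fun n m hn hnm hm => hεV ?_⟩
  have hn0 : (0 : ℝ) < n := by exact_mod_cast (by omega : 0 < n)
  have key : ∀ m : ℕ, n ≤ m → |u m - u n| ≤ B * ((m : ℝ) - n) / n := by
    intro m hm
    induction m, hm using Nat.le_induction with
    | base => simp
    | succ k hk ih =>
      have h1 := h k (by omega)
      have hk' : (n : ℝ) ≤ k := by exact_mod_cast hk
      have h2 : B / ((k : ℝ) + 1) ≤ B / n := div_le_div_of_nonneg_left hB hn0 (by linarith)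
      calc |u (k + 1) - u n| = |(u (k + 1) - u k) + (u k - u n)| := by ring_nf
        _ ≤ |u (k + 1) - u k| + |u k - u n| := abs_add_le _ _
        _ ≤ B / n + B * ((k : ℝ) - n) / n := by linarith
        _ = B * (((k + 1 : ℕ) : ℝ) - n) / n := by push_cast; ring
  rw [Real.dist_eq, abs_sub_comm]
  have h1 := key m hnm
  have h2 : B * ((m : ℝ) - n) / n ≤ B * (ε / (B + 1)) := by
    rw [div_le_iff₀ hn0]
    have : (m : ℝ) - n ≤ ε / (B + 1) * n := by linarith
    calc B * ((m : ℝ) - n) ≤ B * (ε / (B + 1) * n) := mul_le_mul_of_nonneg_left this hB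
      _ = B * (ε / (B + 1)) * n := by ring
  have h3 : B * (ε / (B + 1)) < ε := by
    rw [mul_div_assoc', div_lt_iff₀ (by linarith)]
    nlinarith
  linarith

lemma codeRate_slow {θ : ℝ} (hθ : 0 < θ) (hθ2 : θ < Real.pi / 2) : Slow (codeRate θ) := by
  have hs : 0 < Real.sin (θ / 2) :=
    Real.sin_pos_of_pos_of_lt_pi (by linarith) (by linarith [Real.pi_pos])
  obtain ⟨m, hm, h7⟩ := exists_m hθ hθ2
  set K := Real.logb 2 ((1 + 2 * Real.sin (θ / 2)) / Real.sin (θ / 2)) with hK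
  set C := Real.logb 2 (8 * (m : ℝ)) with hC
  have hm1 : (1 : ℝ) ≤ m := by exact_mod_cast hm
  have hC0 : 0 ≤ C := Real.logb_nonneg (by norm_num) (by linarith)
  have hK0 : 0 ≤ K := by
    apply Real.logb_nonneg (by norm_num)
    rw [le_div_iff₀ hs]
    linarith
  refine slow_of_steps (B := C + K) (N := 4) (by linarith) ?_
  intro n hn
  have : NeZero n := ⟨by omega⟩
  have hn0 : (0 : ℝ) < n := by exact_mod_cast (by omega : 0 < n)
  have h1 : sphMax n θ ≤ sphMax (n + 1) θ := sphMax_mono_succ hs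
  have h2 := sphMax_succ_le hθ hθ2 hm h7 hn
  have hpos : 0 < sphMax n θ := by
    have := sphMax_pos (d := n) (by omega) hs
    exact_mod_cast this
  have hposR : (0 : ℝ) < sphMax n θ := by exact_mod_cast hpos
  have l1 : Real.logb 2 (sphMax n θ) ≤ Real.logb 2 (sphMax (n + 1) θ) :=
    Real.logb_le_logb_of_le (by norm_num) hposR (by exact_mod_cast h1)
  have l2 : Real.logb 2 (sphMax (n + 1) θ) ≤ C + Real.logb 2 (sphMax n θ) := by
    rw [hC, ← Real.logb_mul (by positivity) hposR.ne']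
    apply Real.logb_le_logb_of_le (by norm_num)
    · exact_mod_cast lt_of_lt_of_le hpos h1
    · exact_mod_cast h2
  have hr0 := codeRate_nonneg θ n
  have hr1 := codeRate_le hs n
  have e0 : Real.logb 2 (sphMax n θ) = n * codeRate θ n := by
    unfold codeRate
    field_simp
  have e1 : Real.logb 2 (sphMax (n + 1) θ) = ((n : ℝ) + 1) * codeRate θ (n + 1) := by
    unfold codeRate
    push_cast
    field_simp
  rw [e0, e1] at l1 l2
  have hn1 : (0 : ℝ) < (n : ℝ) + 1 := by positivity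
  change |codeRate θ (n + 1) - codeRate θ n| ≤ _
  rw [abs_le]
  constructor
  · rw [← neg_div, div_le_iff₀ hn1]
    nlinarith
  · rw [le_div_iff₀ hn1]
    nlinarith

/-- a sequence in a compact set converges if it has only one limit point -/
lemma tendsto_of_single {u : ℕ → ℝ} {a b L : ℝ} (ha : ∀ n, a ≤ u n) (hb : ∀ n, u n ≤ b)
    (h : {y | MapClusterPt y atTop u} ⊆ {L}) : Tendsto u atTop (𝓝 L) := by
  have hc : IsCompact (Icc a b) := isCompact_Icc
  refine hc.tendsto_nhds_of_unique_mapClusterPt (Eventually.of_forall fun n => ⟨ha n, hb n⟩) ?_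
  intro y _ hy
  exact h hy

theorem decides_of {u : ℕ → ℝ} {a b : ℝ} (ha : ∀ n, a ≤ u n) (hb : ∀ n, u n ≤ b)
    (hg : ∀ᵐ x : ℝ, 1 < x → ∀ c : ℝ, 0 < c → ∀ n : ℕ → ℕ,
      Tendsto (fun k => (n k : ℝ) / x ^ k) atTop (𝓝 c) →
        {y | MapClusterPt y atTop (fun k => u (n k))} = {y | MapClusterPt y atTop u}) :
    (∃ L : ℝ, Tendsto u atTop (𝓝 L)) ↔
      volume {x : ℝ | 1 < x ∧ ∃ L : ℝ, Tendsto (fun k : ℕ => u ⌊x ^ k⌋₊) atTop (𝓝 L)} ≠ 0 := by
  constructor
  · rintro ⟨L, hL⟩ h0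
    have h1 : volume (Ioi (1 : ℝ)) = 0 := by
      refine measure_mono_null (fun x hx => ?_) h0
      rw [mem_ofPred_eq]
      refine ⟨hx, L, ?_⟩
      have h2 : Tendsto (fun k : ℕ => ⌊x ^ k⌋₊) atTop atTop :=
        tendsto_nat_floor_atTop.comp (tendsto_pow_atTop_atTop_of_one_lt hx)
      exact hL.comp h2
    rw [Real.volume_Ioi] at h1
    exact absurd h1 (by simp)
  · intro hne
    by_contra hcon
    apply hne
    rw [ae_iff] at hg
    refine measure_mono_null ?_ hg
    rintro x ⟨hx, L, hL⟩ hP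
    apply hcon
    have hfl : Tendsto (fun k : ℕ => ((⌊x ^ k⌋₊ : ℕ) : ℝ) / x ^ k) atTop (𝓝 1) :=
      (tendsto_nat_floor_div_atTop (R := ℝ)).comp (tendsto_pow_atTop_atTop_of_one_lt hx)
    have h1 := hP hx 1 one_pos _ hfl
    have hsing : {y | MapClusterPt y atTop (fun k : ℕ => u ⌊x ^ k⌋₊)} ⊆ {L} := by
      intro y hy
      have : ClusterPt y (𝓝 L) := ClusterPt.mono hy hL
      exact (eq_of_nhds_neBot this)
    rw [h1] at hsing
    exact ⟨L, tendsto_of_single ha hb hsing⟩

end Pool.Agent.Q213.GD
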