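import Pool.Agent.H160R3.Herm.Seq

set_option autoImplicit false

/-! Slowly decreasing sequences stay near every limit point on long windows. -/

open Set Filter
open scoped Topology

namespace Pool.Agent.Q213.GD

open Pool.Agent.H160R3.Herm

variable {u : ℕ → ℝ} {η : ℝ → ℝ} {a b : ℝ}

theorem windows (h : SlowDec u η a b) {ε x : ℝ} (hε : 0 < ε)
    (hx1 : liminf u atTop ≤ x) (hx2 : x ≤ limsup u atTop) :
    ∃ κ : ℝ, 0 < κ ∧ κ ≤ 1 ∧ ∀ M : ℕ, ∃ m : ℕ, M ≤ m ∧
      ∀ n : ℕ, m ≤ n → (n : ℝ) ≤ (1 + κ) * m → |u n - x| < ε := by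
  obtain ⟨δ', hδ', hη⟩ := h.small (ε / 4) (by positivity)
  set δ : ℝ := min δ' 1 / 2 with hδ
  have hmin : 0 < min δ' 1 := lt_min hδ' one_pos
  have hδ0 : 0 < δ := by positivity
  have hδ1 : δ ≤ 1 / 2 := by
    have := min_le_right δ' 1
    rw [hδ]; linarith
  have hδ2 : δ < δ' := by
    have := min_le_left δ' 1
    rw [hδ]; linarith
  have hE : ∀ θ, 0 ≤ θ → θ ≤ δ → η θ ≤ ε / 4 := fun θ h0 h1 => (hη θ h0 (h1.trans_lt hδ2)).le
  refine ⟨δ / 2, by positivity, by linarith, fun M => ?_⟩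
  obtain ⟨N1, hN1⟩ := exists_nat_gt (8 / δ)
  set M0 : ℕ := max (max M N1) 1 with hM0
  by_cases hA : ∃ᶠ n in atTop, x + ε / 2 < u n
  · obtain ⟨n1, hn1, hn1u⟩ := frequently_atTop.1 hA M0
    have h5 : ∃ᶠ n in atTop, u n < x + ε / 4 := by
      apply frequently_lt_of_liminf_lt (h.bddU _).isCoboundedUnder_ge
      linarith
    obtain ⟨n2, hn2, hn2u⟩ := frequently_atTop.1 h5 n1
    classical
    have hex : ∃ m, n1 ≤ m ∧ u m < x + ε / 4 := ⟨n2, hn2, hn2u⟩
    set m := Nat.find hex with hm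
    obtain ⟨hm1, hm2⟩ := Nat.find_spec hex
    rw [← hm] at hm1 hm2
    have hn10 : 0 < n1 := by omega
    have hn1r : (0 : ℝ) < n1 := by exact_mod_cast hn10
    have hmr : (0 : ℝ) < m := by exact_mod_cast (lt_of_lt_of_le hn10 hm1)
    have hstep : (n1 : ℝ) < (1 - δ) * m := by
      by_contra hcon
      rw [not_lt] at hcon
      have k1 := h.step n1 m hn10 hm1
      have k2 : η (1 - n1 / m) ≤ ε / 4 := by
        apply hE
        · rw [sub_nonneg, div_le_one hmr]; exact_mod_cast hm1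
        · rw [sub_le_comm, le_div_iff₀ hmr]; exact hcon
      linarith
    set k : ℕ := ⌈(1 - δ) * (m : ℝ)⌉₊ with hk
    have hk1 : (1 - δ) * (m : ℝ) ≤ k := Nat.le_ceil _
    have hk2 : (k : ℝ) < (1 - δ) * m + 1 := Nat.ceil_lt_add_one (by nlinarith)
    have hn1k : n1 < k := by
      have : (n1 : ℝ) < k := hstep.trans_le hk1
      exact_mod_cast this
    have hbig : (8 / δ : ℝ) < m := by
      have : N1 ≤ m := by omega
      have : (N1 : ℝ) ≤ m := by exact_mod_cast this
      linarith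
    rw [div_lt_iff₀ hδ0] at hbig
    refine ⟨k, by omega, ?_⟩
    intro n hn hn'
    have hnm : n < m := by
      have : (n : ℝ) < m := by
        have a1 : (1 + δ / 2) * (k : ℝ) ≤ (1 + δ / 2) * ((1 - δ) * m + 1) := by
          apply mul_le_mul_of_nonneg_left hk2.le; positivity
        nlinarith
      exact_mod_cast this
    have hnlow : x + ε / 4 ≤ u n := by
      by_contra hcon
      exact Nat.find_min hex hnm ⟨by omega, not_le.1 hcon⟩
    have k1 := h.step n m (by omega) hnm.le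
    have k2 : η (1 - n / m) ≤ ε / 4 := by
      have hnk : (k : ℝ) ≤ n := by exact_mod_cast hn
      apply hE
      · rw [sub_nonneg, div_le_one hmr]; exact_mod_cast hnm.le
      · rw [sub_le_comm, le_div_iff₀ hmr]; exact hk1.trans hnk
    rw [abs_lt]
    constructor <;> linarith
  · rw [not_frequently] at hA
    obtain ⟨N2, hN2⟩ := eventually_atTop.1 hA
    have h4 : ∃ᶠ n in atTop, x - ε / 4 < u n := by
      apply frequently_lt_of_lt_limsup (h.bddL _).isCoboundedUnder_le
      linarith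
    obtain ⟨n, hn, hnu⟩ := frequently_atTop.1 h4 (max M0 N2)
    have hn0 : 0 < n := by omega
    have hnr : (0 : ℝ) < n := by exact_mod_cast hn0
    refine ⟨n, by omega, ?_⟩
    intro j hj hj'
    have hup : u j ≤ x + ε / 2 := not_lt.1 (hN2 j (by omega))
    have k1 := h.step n j hn0 hj
    have hjn : (n : ℝ) ≤ j := by exact_mod_cast hj
    have hj0 : (0 : ℝ) < j := by linarith
    have k2 : η (1 - n / j) ≤ ε / 4 := by
      apply hE
      · rw [sub_nonneg, div_le_one hj0]; exact hjn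
      · rw [sub_le_comm, le_div_iff₀ hj0]; nlinarith
    rw [abs_lt]
    constructor <;> linarith

end Pool.Agent.Q213.GD
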