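import Pool.Agent.Q213.GD.Metric
import Pool.Agent.Q213.GD.Win

set_option autoImplicit false

/-! Limit points of slowly decreasing sequences along geometric sequences of indices. -/

open MeasureTheory Set Filter
open scoped Topology

namespace Pool.Agent.Q213.GD

open Pool.Agent.H160R3.Herm

variable {u : ℕ → ℝ} {η : ℝ → ℝ} {a b : ℝ}

/-- for one limit point and one tolerance: almost every `v = 1 / log x` is good -/
theorem one_point (h : SlowDec u η a b) {ε y : ℝ} (hε : 0 < ε)
    (hy1 : liminf u atTop ≤ y) (hy2 : y ≤ limsup u atTop) :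
    ∀ᵐ v : ℝ, 0 < v → ∀ c : ℝ, 0 < c → ∀ n : ℕ → ℕ,
      Tendsto (fun k => (n k : ℝ) / Real.exp v⁻¹ ^ k) atTop (𝓝 c) →
        ∃ᶠ k in atTop, |u (n k) - y| < ε := by
  obtain ⟨κ, hκ, hκ1, hw⟩ := windows h hε hy1 hy2
  choose m hm1 hm2 using hw
  set ℓ : ℝ := Real.log (1 + κ) with hℓ
  have hℓ0 : 0 < ℓ := Real.log_pos (by linarith)
  set T : ℕ → ℝ := fun i => Real.log (m (i + 1)) + ℓ / 4 with hT
  have hmt : Tendsto (fun i => (m (i + 1) : ℝ)) atTop atTop :=
    tendsto_atTop_mono (fun i => by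
      have := hm1 (i + 1)
      have h2 : ((i + 1 : ℕ) : ℝ) ≤ m (i + 1) := by exact_mod_cast this
      push_cast at h2
      show (i : ℝ) ≤ m (i + 1)
      linarith) tendsto_natCast_atTop_atTop
  have hTt : Tendsto T atTop atTop :=
    tendsto_atTop_add_const_right _ _ (Real.tendsto_log_atTop.comp hmt)
  filter_upwards [ae_dense T hTt] with v hv hv0 c hc n hn
  have hα : 0 < v⁻¹ := inv_pos.2 hv0
  have hlim : Tendsto (fun k => Real.log ((n k : ℝ) / Real.exp v⁻¹ ^ k)) atTop
      (𝓝 (Real.log c)) := (Real.continuousAt_log hc.ne').tendsto.comp hn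
  have hev1 : ∀ᶠ k in atTop, |Real.log ((n k : ℝ) / Real.exp v⁻¹ ^ k) - Real.log c| < ℓ / 4 := by
    have := hlim.eventually (Metric.ball_mem_nhds _ (show 0 < ℓ / 4 by positivity))
    filter_upwards [this] with k hk
    rwa [Real.dist_eq] at hk
  have hev2 : ∀ᶠ k in atTop, 0 < (n k : ℝ) / Real.exp v⁻¹ ^ k := hn.eventually_const_lt hc
  obtain ⟨k1, hk1⟩ := eventually_atTop.1 (hev1.and hev2)
  rw [frequently_atTop]
  intro K
  rw [← inv_inv v] at hv
  obtain ⟨i, k, -, hk, hlo, hhi⟩ := hv.hits hTt hα (Real.log c) (show 0 < ℓ / 2 by positivity)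
    (max K k1) 0
  refine ⟨k, (le_max_left _ _).trans hk, hm2 (i + 1) (n k) ?_ ?_⟩
  all_goals
    obtain ⟨g1, g2⟩ := hk1 k ((le_max_right _ _).trans hk)
    have hxk : 0 < Real.exp v⁻¹ ^ k := by positivity
    have hnk : 0 < (n k : ℝ) := by
      rcases (Nat.cast_nonneg (n k) : (0 : ℝ) ≤ n k).eq_or_lt with e | e
      · rw [← e, zero_div] at g2; exact absurd g2 (lt_irrefl _)
      · exact e
    rw [Real.log_div hnk.ne' hxk.ne', Real.log_pow, Real.log_exp, abs_lt] at g1
    have hmi : 0 < (m (i + 1) : ℝ) := by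
      have := hm1 (i + 1)
      have h2 : ((i + 1 : ℕ) : ℝ) ≤ m (i + 1) := by exact_mod_cast this
      push_cast at h2
      have : (0 : ℝ) ≤ i := Nat.cast_nonneg i
      linarith
    rw [hT] at hlo hhi
    simp only at hlo hhi
  · have : Real.log (m (i + 1)) < Real.log (n k) := by linarith
    have := (Real.log_lt_log_iff hmi hnk).1 this
    have : m (i + 1) < n k := by exact_mod_cast this
    exact this.le
  · have h3 : Real.log (n k) < Real.log ((1 + κ) * m (i + 1)) := by
      rw [Real.log_mul (by linarith) hmi.ne', ← hℓ]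
      linarith
    exact ((Real.log_lt_log_iff hnk (by positivity)).1 h3).le

/-- all limit points, in terms of `v = 1 / log x` -/
theorem all_points (h : SlowDec u η a b) :
    ∀ᵐ v : ℝ, 0 < v → ∀ c : ℝ, 0 < c → ∀ n : ℕ → ℕ,
      Tendsto (fun k => (n k : ℝ) / Real.exp v⁻¹ ^ k) atTop (𝓝 c) →
        {y | MapClusterPt y atTop (fun k => u (n k))} =
          Icc (liminf u atTop) (limsup u atTop) := by
  obtain ⟨D, hD1, hD2, hD3⟩ :=
    (TopologicalSpace.IsSeparable.of_separableSpace
      (Icc (liminf u atTop) (limsup u atTop))).exists_countable_dense_subset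
  have h1 : ∀ᵐ v : ℝ, ∀ y ∈ D, ∀ j : ℕ, 0 < v → ∀ c : ℝ, 0 < c → ∀ n : ℕ → ℕ,
      Tendsto (fun k => (n k : ℝ) / Real.exp v⁻¹ ^ k) atTop (𝓝 c) →
        ∃ᶠ k in atTop, |u (n k) - y| < 1 / ((j : ℝ) + 1) := by
    rw [ae_ball_iff hD2]
    intro y hy
    rw [ae_all_iff]
    intro j
    exact one_point h (by positivity) (hD1 hy).1 (hD1 hy).2
  filter_upwards [h1] with v hv hv0 c hc n hn
  apply Subset.antisymm
  · intro y hy
    have hnt : Tendsto n atTop atTop := by
      have hx : 1 < Real.exp v⁻¹ := Real.one_lt_exp_iff.2 (inv_pos.2 hv0)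
      have h2 := hn.pos_mul_atTop hc (tendsto_pow_atTop_atTop_of_one_lt hx)
      have h3 : Tendsto (fun k => (n k : ℝ)) atTop atTop := by
        refine h2.congr fun k => ?_
        have : Real.exp v⁻¹ ^ k ≠ 0 := by positivity
        field_simp
      exact tendsto_natCast_atTop_iff.1 h3
    rw [← h.clusterPts]
    exact MapClusterPt.of_comp hnt hy
  · have hcl : IsClosed {y | MapClusterPt y atTop (fun k => u (n k))} :=
      isClosed_setOfPred_clusterPt
    refine hD3.trans (closure_minimal ?_ hcl)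
    intro y hy
    rw [mem_ofPred_eq, mapClusterPt_iff_frequently]
    intro s hs
    obtain ⟨ε, hε, hεs⟩ := Metric.mem_nhds_iff.1 hs
    obtain ⟨j, hj⟩ := exists_nat_one_div_lt hε
    refine (hv y hy j hv0 c hc n hn).mono fun k hk => hεs ?_
    rw [Metric.mem_ball, Real.dist_eq]
    exact hk.trans hj

/-- all limit points along geometric sequences of indices, for almost every ratio -/
theorem geometric (h : SlowDec u η a b) :
    ∀ᵐ x : ℝ, 1 < x → ∀ c : ℝ, 0 < c → ∀ n : ℕ → ℕ,
      Tendsto (fun k => (n k : ℝ) / x ^ k) atTop (𝓝 c) →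
        {y | MapClusterPt y atTop (fun k => u (n k))} =
          Icc (liminf u atTop) (limsup u atTop) := by
  set P : ℝ → Prop := fun x => ∀ c : ℝ, 0 < c → ∀ n : ℕ → ℕ,
      Tendsto (fun k => (n k : ℝ) / x ^ k) atTop (𝓝 c) →
        {y | MapClusterPt y atTop (fun k => u (n k))} =
          Icc (liminf u atTop) (limsup u atTop) with hP
  have h1 : volume {v : ℝ | ¬ (0 < v → P (Real.exp v⁻¹))} = 0 := ae_iff.1 (all_points h)
  have h2 : volume ((fun v : ℝ => Real.exp v⁻¹) '' {v : ℝ | ¬ (0 < v → P (Real.exp v⁻¹))}) = 0 := by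
    apply addHaar_image_eq_zero_of_differentiableOn_of_addHaar_eq_zero _ _ h1
    intro v hv
    rw [mem_ofPred_eq, Classical.not_imp] at hv
    have : DifferentiableAt ℝ (fun v : ℝ => Real.exp v⁻¹) v :=
      (differentiableAt_inv hv.1.ne').exp
    exact this.differentiableWithinAt
  rw [ae_iff]
  refine measure_mono_null ?_ h2
  intro x hx
  rw [mem_ofPred_eq, Classical.not_imp] at hx
  have hlog : 0 < Real.log x := Real.log_pos hx.1
  refine ⟨(Real.log x)⁻¹, ?_, ?_⟩
  · rw [mem_ofPred_eq, Classical.not_imp, inv_inv, Real.exp_log (by linarith [hx.1])]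
    exact ⟨inv_pos.2 hlog, hx.2⟩
  · simp only
    rw [inv_inv, Real.exp_log (by linarith [hx.1])]

/-- convergence along geometric sequences for a set of ratios which is not null -/
theorem decides (h : SlowDec u η a b) :
    (∃ L : ℝ, Tendsto u atTop (𝓝 L)) ↔
      volume {x : ℝ | 1 < x ∧ ∃ L : ℝ, Tendsto (fun k : ℕ => u ⌊x ^ k⌋₊) atTop (𝓝 L)} ≠ 0 := by
  constructor
  · rintro ⟨L, hL⟩ h0
    have h1 : volume (Ioi (1 : ℝ)) = 0 := by
      refine measure_mono_null (fun x hx => ?_) h0
      rw [mem_ofPred_eq]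
      refine ⟨hx, L, ?_⟩
      have h2 : Tendsto (fun k : ℕ => ⌊x ^ k⌋₊) atTop atTop :=
        tendsto_nat_floor_atTop.comp (tendsto_pow_atTop_atTop_of_one_lt hx)
      exact hL.comp h2
    rw [Real.volume_Ioi] at h1
    exact absurd h1 (by simp)
  · intro hne
    by_contra hcon
    apply hne
    have hg := geometric h
    rw [ae_iff] at hg
    refine measure_mono_null ?_ hg
    rintro x ⟨hx, L, hL⟩ hP
    apply hcon
    have hfl : Tendsto (fun k : ℕ => ((⌊x ^ k⌋₊ : ℕ) : ℝ) / x ^ k) atTop (𝓝 1) :=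
      (tendsto_nat_floor_div_atTop (R := ℝ)).comp (tendsto_pow_atTop_atTop_of_one_lt hx)
    have h1 := hP hx 1 one_pos _ hfl
    have hsing : {y | MapClusterPt y atTop (fun k : ℕ => u ⌊x ^ k⌋₊)} = {L} := by
      ext y
      rw [mem_ofPred_eq, mem_singleton_iff]
      constructor
      · intro hy
        have : ClusterPt y (𝓝 L) := ClusterPt.mono hy hL
        exact (eq_of_nhds_neBot this)
      · rintro rfl
        exact hL.mapClusterPt
    rw [hsing] at h1
    have hle : liminf u atTop ≤ limsup u atTop := by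
      apply liminf_le_limsup (h.bddU _) (h.bddL _)
    have h2 : liminf u atTop = L := by
      have : liminf u atTop ∈ ({L} : Set ℝ) := by rw [h1]; exact ⟨le_rfl, hle⟩
      exact this
    have h3 : limsup u atTop = L := by
      have : limsup u atTop ∈ ({L} : Set ℝ) := by rw [h1]; exact ⟨hle, le_rfl⟩
      exact this
    exact ⟨L, tendsto_of_liminf_eq_limsup h2 h3 (h.bddU _) (h.bddL _)⟩

end Pool.Agent.Q213.GD
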