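import Mathlib

set_option autoImplicit false

/-! Dilations of a sequence tending to infinity are dense modulo one for almost every factor. -/

open MeasureTheory Set Filter Metric
open scoped Topology ENNReal

namespace Pool.Agent.Q213.GD

/-- the points whose dilations avoid an interval from some index on -/
def Bad (T : ℕ → ℝ) (p q : ℝ) (N : ℕ) : Set ℝ := {v | ∀ i, N ≤ i → Int.fract (T i * v) ∉ Ioo p q}

lemma measurableSet_bad (T : ℕ → ℝ) (p q : ℝ) (N : ℕ) : MeasurableSet (Bad T p q N) := by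
  have e : Bad T p q N = ⋂ i, ⋂ (_ : N ≤ i), (fun v => Int.fract (T i * v)) ⁻¹' (Ioo p q)ᶜ := by
    ext v
    simp [Bad]
  rw [e]
  refine MeasurableSet.iInter fun i => MeasurableSet.iInter fun _ => ?_
  exact (measurable_fract.comp (measurable_const_mul (T i))) measurableSet_Ioo.compl

lemma bad_ball (T : ℕ → ℝ) {p q : ℝ} (hpq : p < q) (hp : 0 ≤ p) (hq : q ≤ 1) {N i : ℕ}
    (hi : N ≤ i) (hT : 0 < T i) (v : ℝ) :
    volume (Bad T p q N ∩ closedBall v (1 / T i)) / volume (closedBall v (1 / T i)) ≤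
      ENNReal.ofReal (1 - (q - p) / 2) := by
  set t := T i with ht
  set k : ℝ := (⌊t * v⌋ : ℝ) with hk
  have hk1 : k ≤ t * v := Int.floor_le _
  have hk2 : t * v < k + 1 := Int.lt_floor_add_one _
  set J : Set ℝ := Ioo ((k + p) / t) ((k + q) / t) with hJ
  have hJsub : J ⊆ closedBall v (1 / t) := by
    intro w hw
    rw [hJ, mem_Ioo, div_lt_iff₀ hT, lt_div_iff₀ hT] at hw
    rw [mem_closedBall, Real.dist_eq, abs_le, neg_le_sub_iff_le_add, sub_le_iff_le_add]
    constructor
    · rw [← sub_le_iff_le_add, sub_le_iff_le_add, ← sub_nonneg]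
      have : w + 1 / t - v = (w * t + 1 - t * v) / t := by field_simp
      rw [this]
      apply div_nonneg _ hT.le
      linarith
    · rw [← sub_nonneg]
      have : 1 / t + v - w = (1 + t * v - w * t) / t := by field_simp
      rw [this]
      apply div_nonneg _ hT.le
      linarith
  have hJbad : Disjoint (Bad T p q N ∩ closedBall v (1 / t)) J := by
    rw [Set.disjoint_left]
    rintro w ⟨hw, -⟩ hwJ
    rw [hJ, mem_Ioo, div_lt_iff₀ hT, lt_div_iff₀ hT] at hwJ
    apply hw i hi
    rw [← ht]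
    have hfl : ⌊t * w⌋ = ⌊t * v⌋ := by
      rw [Int.floor_eq_iff, ← hk]
      constructor <;> linarith
    rw [mem_Ioo, ← Int.self_sub_floor, hfl, ← hk]
    constructor <;> linarith
  have hsum : volume (Bad T p q N ∩ closedBall v (1 / t)) + volume J ≤
      volume (closedBall v (1 / t)) := by
    rw [← measure_union hJbad measurableSet_Ioo]
    exact measure_mono (union_subset inter_subset_right hJsub)
  have hvJ : volume J = ENNReal.ofReal ((q - p) / t) := by
    rw [hJ, Real.volume_Ioo]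
    congr 1
    field_simp
    ring
  have hvB : volume (closedBall v (1 / t)) = ENNReal.ofReal (2 / t) := by
    rw [Real.volume_closedBall]
    congr 1
    ring
  rw [hvB, hvJ] at hsum
  have h1 : volume (Bad T p q N ∩ closedBall v (1 / t)) ≤
      ENNReal.ofReal (2 / t) - ENNReal.ofReal ((q - p) / t) :=
    ENNReal.le_sub_of_add_le_right ENNReal.ofReal_ne_top hsum
  rw [← ENNReal.ofReal_sub _ (by apply div_nonneg _ hT.le; linarith)] at h1
  rw [hvB]
  refine (ENNReal.div_le_div_right h1 _).trans ?_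
  rw [← ENNReal.ofReal_div_of_pos (by positivity)]
  apply ENNReal.ofReal_le_ofReal
  apply le_of_eq
  field_simp

lemma bad_null (T : ℕ → ℝ) (hT : Tendsto T atTop atTop) {p q : ℝ} (hpq : p < q) (hp : 0 ≤ p)
    (hq : q ≤ 1) (N : ℕ) : ∀ᵐ v : ℝ, v ∉ Bad T p q N := by
  have h := Besicovitch.ae_tendsto_measure_inter_div_of_measurableSet (volume : Measure ℝ)
    (measurableSet_bad T p q N)
  filter_upwards [h] with v hv hmem
  rw [indicator_of_mem hmem] at hv
  have h1 : Tendsto (fun i => 1 / T i) atTop (𝓝[>] 0) := by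
    rw [tendsto_nhdsWithin_iff]
    constructor
    · simp_rw [one_div]
      exact tendsto_inv_atTop_zero.comp hT
    · filter_upwards [hT.eventually_gt_atTop 0] with i hi
      exact one_div_pos.2 hi
  have h2 := hv.comp h1
  have h3 : (1 : ℝ≥0∞) ≤ ENNReal.ofReal (1 - (q - p) / 2) := by
    refine le_of_tendsto h2 ?_
    filter_upwards [hT.eventually_gt_atTop 0, eventually_ge_atTop N] with i hi hiN
    exact bad_ball T hpq hp hq hiN hi v
  rw [ENNReal.one_le_ofReal] at h3
  linarith

/-- `T i * v` visits every interval modulo one infinitely often -/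
def Dense (T : ℕ → ℝ) (v : ℝ) : Prop :=
  ∀ p q : ℚ, (0 : ℝ) ≤ p → (p : ℝ) < q → (q : ℝ) ≤ 1 →
    ∃ᶠ i in atTop, Int.fract (T i * v) ∈ Ioo (p : ℝ) q

theorem ae_dense (T : ℕ → ℝ) (hT : Tendsto T atTop atTop) : ∀ᵐ v : ℝ, Dense T v := by
  unfold Dense
  rw [ae_all_iff]
  intro p
  rw [ae_all_iff]
  intro q
  by_cases h : (0 : ℝ) ≤ p ∧ (p : ℝ) < q ∧ (q : ℝ) ≤ 1
  · have h1 : ∀ᵐ v : ℝ, ∀ N, v ∉ Bad T p q N :=
      ae_all_iff.2 fun N => bad_null T hT h.2.1 h.1 h.2.2 N
    filter_upwards [h1] with v hv _ _ _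
    rw [frequently_atTop]
    intro N
    by_contra hcon
    push Not at hcon
    exact hv N fun i hi => hcon i hi
  · filter_upwards with v h1 h2 h3
    exact absurd ⟨h1, h2, h3⟩ h

/-- the orbits of a dense sequence of dilations: hits of moving windows -/
theorem Dense.hits {T : ℕ → ℝ} (hT : Tendsto T atTop atTop) {α : ℝ} (hα : 0 < α)
    (h : Dense T α⁻¹) (β : ℝ) {θ : ℝ} (hθ : 0 < θ) (k0 i0 : ℕ) :
    ∃ i k : ℕ, i0 ≤ i ∧ k0 ≤ k ∧ T i < β + k * α ∧ β + k * α < T i + θ := by
  set v := α⁻¹ with hv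
  have hv0 : 0 < v := inv_pos.2 hα
  set γ : ℝ := -(β * v) with hγ
  set m : ℤ := ⌊γ⌋ + 1 with hm
  have hm1 : γ < m := by
    rw [hm]; push_cast; exact Int.lt_floor_add_one _
  have hm2 : (m : ℝ) ≤ γ + 1 := by
    rw [hm]; push_cast
    have := Int.floor_le γ
    linarith
  have hlt : max 0 (m - γ - θ * v) < m - γ := by
    apply max_lt
    · linarith
    · have : 0 < θ * v := by positivity
      linarith
  obtain ⟨p, hp1, hp2⟩ := exists_rat_btwn hlt
  obtain ⟨q, hq1, hq2⟩ := exists_rat_btwn hp2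
  have hf := h p q ((le_max_left _ _).trans hp1.le) hq1 (by linarith)
  have hev : ∀ᶠ i in atTop, (k0 : ℝ) + 1 + |(m : ℝ)| < T i * v :=
    (hT.atTop_mul_const hv0).eventually_gt_atTop _
  obtain ⟨i, hi, hi1, hi2⟩ := (hf.and_eventually (hev.and (eventually_ge_atTop i0))).exists
  have hfl := Int.self_sub_floor (T i * v)
  set s := Int.fract (T i * v) with hs
  obtain ⟨hs1, hs2⟩ := hi
  have hs3 : m - γ - θ * v < s := ((le_max_right _ _).trans_lt hp1).trans hs1
  have hs4 : s < m - γ := hs2.trans hq2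
  have hs5 : 0 ≤ s := Int.fract_nonneg _
  have hs6 : s < 1 := Int.fract_lt_one _
  set K : ℤ := ⌊T i * v⌋ + m with hK
  have hKr : (K : ℝ) = T i * v - s + m := by
    rw [hK]; push_cast; linarith
  have hK0 : (k0 : ℝ) < K := by
    rw [hKr]
    have := neg_abs_le (m : ℝ)
    linarith
  have hKk : (k0 : ℤ) < K := by exact_mod_cast hK0
  refine ⟨i, K.toNat, hi2, by omega, ?_⟩
  have hcast : ((K.toNat : ℕ) : ℝ) = K := by
    have : ((K.toNat : ℕ) : ℤ) = K := Int.toNat_of_nonneg (by omega)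
    exact_mod_cast this
  rw [hcast]
  have hva : v * α = 1 := inv_mul_cancel₀ hα.ne'
  have e1 : β + (K : ℝ) * α - T i = (m - s - γ) * α := by
    rw [hKr, hγ]
    linear_combination (T i - β) * hva
  have e2 : θ = θ * v * α := by rw [mul_assoc, hva, mul_one]
  constructor
  · have : 0 < (m - s - γ) * α := mul_pos (by linarith) hα
    linarith
  · have : (m - s - γ) * α < θ * v * α := by
      apply mul_lt_mul_of_pos_right _ hα
      linarith
    linarith

end Pool.Agent.Q213.GD
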