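import Pool.Agent.Q213.GD.Joint
import Pool.Agent.Q213.GD.Win

set_option autoImplicit false

/-! Random sparse sets of indices see all limit points of slowly varying sequences. -/

open MeasureTheory Set Filter ProbabilityTheory
open scoped Topology Uniformity

namespace Pool.Agent.Q213.GD

/-- the expected number of elements in the windows `[N, (1 + κ) N]` is bounded from below -/
def Thick (p : ℕ → ℝ) : Prop :=
  ∀ κ : ℝ, 0 < κ → ∃ c : ℝ, 0 < c ∧ ∀ᶠ N : ℕ in atTop,
    c ≤ ∑ n ∈ Finset.Icc N ⌊(1 + κ) * (N : ℝ)⌋₊, p n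

variable {Ω : Type*} [MeasurableSpace Ω] {P : Measure Ω} [IsProbabilityMeasure P] {A : ℕ → Set Ω}

lemma miss_le (hA : ∀ n, MeasurableSet (A n)) (hi : iIndepSet A P) (F : Finset ℕ) :
    P.real (⋂ n ∈ F, (A n)ᶜ) ≤ Real.exp (-∑ n ∈ F, P.real (A n)) := by
  have h1 : P (⋂ n ∈ F, (A n)ᶜ) = ∏ n ∈ F, P (A n)ᶜ := by
    refine iIndep.meas_biInter (m := fun n => MeasurableSpace.generateFrom {A n}) hi fun n _ => ?_
    exact @MeasurableSet.compl _ _ (MeasurableSpace.generateFrom {A n})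
      (MeasurableSpace.measurableSet_generateFrom (mem_singleton _))
  have h2 : P.real (⋂ n ∈ F, (A n)ᶜ) = ∏ n ∈ F, (1 - P.real (A n)) := by
    rw [measureReal_def, h1, ENNReal.toReal_prod]
    refine Finset.prod_congr rfl fun n _ => ?_
    rw [← measureReal_def, probReal_compl_eq_one_sub (hA n)]
  rw [h2, ← Finset.sum_neg_distrib, Real.exp_sum]
  refine Finset.prod_le_prod (fun n _ => ?_) fun n _ => ?_
  · have := measureReal_le_one (μ := P) (s := A n)
    linarith
  · have := Real.add_one_le_exp (-P.real (A n))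
    linarith

theorem random_hit (hA : ∀ n, MeasurableSet (A n)) (hi : iIndepSet A P)
    (hp : Thick fun n => P.real (A n)) {κ : ℝ} (hκ : 0 < κ) {W : ℕ → Prop}
    (hW : ∀ M : ℕ, ∃ m, M ≤ m ∧ W m) :
    ∀ᵐ ω ∂P, ∃ᶠ n in atTop, ω ∈ A n ∧ ∃ m, W m ∧ m ≤ n ∧ (n : ℝ) ≤ (1 + κ) * m := by
  set κ' := min κ 1 with hκ'
  have hκ0 : 0 < κ' := lt_min hκ one_pos
  have hκ1 : κ' ≤ 1 := min_le_right _ _
  obtain ⟨c, hc, hcN⟩ := hp κ' hκ0
  obtain ⟨N0, hN0⟩ := eventually_atTop.1 hcN
  choose f hf1 hf2 using hW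
  set g : ℕ → ℕ := fun i => Nat.rec (f (N0 + 1)) (fun _ r => f (N0 + 2 * r + 1)) i with hg
  have hg0 : g 0 = f (N0 + 1) := rfl
  have hgs : ∀ i, g (i + 1) = f (N0 + 2 * g i + 1) := fun i => rfl
  have hgW : ∀ i, W (g i) := by
    intro i
    cases i with
    | zero => rw [hg0]; exact hf2 _
    | succ i => rw [hgs]; exact hf2 _
  have hgN : ∀ i, N0 + 1 ≤ g i := by
    intro i
    cases i with
    | zero => rw [hg0]; exact hf1 _
    | succ i =>
      rw [hgs]
      have := hf1 (N0 + 2 * g i + 1)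
      omega
  have hg2 : ∀ i, 2 * g i + 1 ≤ g (i + 1) := by
    intro i
    rw [hgs]
    have := hf1 (N0 + 2 * g i + 1)
    omega
  have hgm : StrictMono g := strictMono_nat_of_lt_succ fun i => by
    have := hg2 i
    omega
  set J : ℕ → Finset ℕ := fun i => Finset.Icc (g i) ⌊(1 + κ') * (g i : ℝ)⌋₊ with hJ
  have hJle : ∀ i n, n ∈ J i → g i ≤ n ∧ (n : ℝ) ≤ (1 + κ') * g i := by
    intro i n hn
    rw [hJ, Finset.mem_Icc] at hn
    refine ⟨hn.1, ?_⟩
    exact (Nat.le_floor_iff (by positivity)).1 hn.2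
  have hJ2 : ∀ i n, n ∈ J i → n ≤ 2 * g i := by
    intro i n hn
    have h1 := (hJle i n hn).2
    have h0 : (0 : ℝ) ≤ g i := Nat.cast_nonneg _
    have h2 : (n : ℝ) ≤ ((2 * g i : ℕ) : ℝ) := by push_cast; nlinarith
    exact_mod_cast h2
  have hdis : ∀ i j, i < j → Disjoint (J i) (J j) := by
    intro i j hij
    rw [Finset.disjoint_left]
    intro n hn hn'
    have h1 := hJ2 i n hn
    have h2 := (hJle j n hn').1
    have h3 := hg2 i
    have h4 : g (i + 1) ≤ g j := hgm.monotone hij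
    omega
  set E : ℕ → Set Ω := fun I => {ω | ∀ n, I ≤ n → ¬ (ω ∈ A n ∧ ∃ m, W m ∧ m ≤ n ∧
    (n : ℝ) ≤ (1 + κ) * m)} with hE
  have hEnull : ∀ I, P (E I) = 0 := by
    intro I
    have hbound : ∀ k : ℕ, P (E I) ≤ ENNReal.ofReal (Real.exp (-(c * k))) := by
      intro k
      set F : Finset ℕ := (Finset.Ico I (I + k)).biUnion J with hF
      have hsub : E I ⊆ ⋂ n ∈ F, (A n)ᶜ := by
        intro ω hω
        rw [mem_iInter₂]
        intro n hn hnA
        rw [hF, Finset.mem_biUnion] at hn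
        obtain ⟨i, hi1, hi2⟩ := hn
        rw [Finset.mem_Ico] at hi1
        obtain ⟨h1, h2⟩ := hJle i n hi2
        have h3 : i ≤ g i := hgm.id_le i
        refine hω n (by omega) ⟨hnA, g i, hgW i, h1, h2.trans ?_⟩
        exact mul_le_mul_of_nonneg_right (by linarith [min_le_left κ 1]) (Nat.cast_nonneg _)
      have hsum : c * k ≤ ∑ n ∈ F, P.real (A n) := by
        rw [hF, Finset.sum_biUnion]
        · have h1 : ∑ _i ∈ Finset.Ico I (I + k), c ≤
              ∑ i ∈ Finset.Ico I (I + k), ∑ n ∈ J i, P.real (A n) := by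
            refine Finset.sum_le_sum fun i _ => ?_
            exact hN0 (g i) (by have := hgN i; omega)
          rw [Finset.sum_const, Nat.card_Ico, nsmul_eq_mul] at h1
          have h2 : ((I + k - I : ℕ) : ℝ) = k := by
            rw [Nat.add_sub_cancel_left]
          rw [h2] at h1
          linarith
        · intro i _ j _ hij
          rcases lt_or_gt_of_ne hij with h | h
          · exact hdis i j h
          · exact (hdis j i h).symm
      refine (measure_mono hsub).trans ?_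
      rw [← ofReal_measureReal (measure_ne_top _ _)]
      apply ENNReal.ofReal_le_ofReal
      refine (miss_le hA hi F).trans ?_
      apply Real.exp_le_exp.2
      linarith
    have hlim : Tendsto (fun k : ℕ => ENNReal.ofReal (Real.exp (-(c * k)))) atTop (𝓝 0) := by
      rw [← ENNReal.ofReal_zero]
      refine ENNReal.tendsto_ofReal ?_
      refine Real.tendsto_exp_neg_atTop_nhds_zero.comp ?_
      exact tendsto_natCast_atTop_atTop.const_mul_atTop hc
    exact nonpos_iff_eq_zero.1 (ge_of_tendsto' hlim hbound)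
  have h1 : ∀ᵐ ω ∂P, ∀ I, ω ∉ E I := ae_all_iff.2 fun I => measure_eq_zero_iff_ae_notMem.1 (hEnull I)
  filter_upwards [h1] with ω hω
  rw [frequently_atTop]
  intro I
  have := hω I
  rw [hE, mem_ofPred_eq] at this
  push Not at this
  obtain ⟨n, hn1, hn2, m, hn3, hn4, hn5⟩ := this
  exact ⟨n, hn1, hn2, m, hn3, hn4, hn5⟩

/-- all limit points along random sets of indices, in uniform spaces -/
theorem random_joint {X : Type*} [UniformSpace X] [IsCountablyGenerated (𝓤 X)]
    [SecondCountableTopology X] {u : ℕ → X} (hu : Slow u) (hA : ∀ n, MeasurableSet (A n))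
    (hi : iIndepSet A P) (hp : Thick fun n => P.real (A n)) :
    ∀ᵐ ω ∂P, {y | MapClusterPt y (atTop ⊓ 𝓟 {n | ω ∈ A n}) u} = {y | MapClusterPt y atTop u} := by
  obtain ⟨D, hD1, hD2, hD3⟩ :=
    (TopologicalSpace.IsSeparable.of_separableSpace
      {y | MapClusterPt y atTop u}).exists_countable_dense_subset
  obtain ⟨V, hV⟩ := (𝓤 X).exists_antitone_basis
  have h1 : ∀ᵐ ω ∂P, ∀ y ∈ D, ∀ j : ℕ, ∃ᶠ n in atTop ⊓ 𝓟 {n | ω ∈ A n}, (y, u n) ∈ V j := by
    rw [ae_ball_iff hD2]
    intro y hy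
    rw [ae_all_iff]
    intro j
    obtain ⟨W, hW, hWV⟩ := comp_mem_uniformity_sets (hV.1.mem_of_mem (i := j) trivial)
    obtain ⟨κ, hκ, N, hN⟩ := hu W hW
    have h2 : ∃ᶠ n in atTop, (y, u n) ∈ W :=
      mapClusterPt_iff_frequently.1 (hD1 hy) _ (UniformSpace.ball_mem_nhds y hW)
    have h3 : ∀ M : ℕ, ∃ m : ℕ, M ≤ m ∧ (N ≤ m ∧ (y, u m) ∈ W) := by
      intro i
      obtain ⟨m, hm, hm'⟩ := frequently_atTop.1 h2 (max i N)
      exact ⟨m, (le_max_left _ _).trans hm, (le_max_right _ _).trans hm, hm'⟩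
    filter_upwards [random_hit hA hi hp hκ h3] with ω hω
    rw [frequently_inf_principal]
    refine hω.mono ?_
    rintro n ⟨hn, m, ⟨hm1, hm2⟩, hm3, hm4⟩
    exact ⟨hn, hWV ⟨u m, hm2, hN m n hm1 hm3 hm4⟩⟩
  filter_upwards [h1] with ω hω
  apply Subset.antisymm
  · intro y hy
    exact hy.mono inf_le_left
  · have hcl : IsClosed {y | MapClusterPt y (atTop ⊓ 𝓟 {n | ω ∈ A n}) u} :=
      isClosed_setOfPred_clusterPt
    refine hD3.trans (closure_minimal ?_ hcl)
    intro y hy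
    rw [mem_ofPred_eq, mapClusterPt_iff_frequently]
    intro s hs
    rw [UniformSpace.mem_nhds_iff] at hs
    obtain ⟨W, hW, hWs⟩ := hs
    obtain ⟨j, -, hj⟩ := hV.1.mem_iff.1 hW
    exact (hω y hy j).mono fun k hk => hWs (hj hk)

open Pool.Agent.H160R3.Herm in
/-- all limit points along random sets of indices, for slowly decreasing sequences -/
theorem random_slowDec {u : ℕ → ℝ} {η : ℝ → ℝ} {a b : ℝ} (h : SlowDec u η a b)
    (hA : ∀ n, MeasurableSet (A n)) (hi : iIndepSet A P) (hp : Thick fun n => P.real (A n)) :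
    ∀ᵐ ω ∂P, {y | MapClusterPt y (atTop ⊓ 𝓟 {n | ω ∈ A n}) u} =
      Icc (liminf u atTop) (limsup u atTop) := by
  obtain ⟨D, hD1, hD2, hD3⟩ :=
    (TopologicalSpace.IsSeparable.of_separableSpace
      (Icc (liminf u atTop) (limsup u atTop))).exists_countable_dense_subset
  have h1 : ∀ᵐ ω ∂P, ∀ y ∈ D, ∀ j : ℕ,
      ∃ᶠ n in atTop ⊓ 𝓟 {n | ω ∈ A n}, |u n - y| < 1 / ((j : ℝ) + 1) := by
    rw [ae_ball_iff hD2]
    intro y hy
    rw [ae_all_iff]
    intro j
    obtain ⟨κ, hκ, -, hw⟩ := windows h (show 0 < 1 / ((j : ℝ) + 1) by positivity)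
      (hD1 hy).1 (hD1 hy).2
    filter_upwards [random_hit hA hi hp hκ (W := fun m => ∀ n : ℕ, m ≤ n →
      (n : ℝ) ≤ (1 + κ) * m → |u n - y| < 1 / ((j : ℝ) + 1)) hw] with ω hω
    rw [frequently_inf_principal]
    refine hω.mono ?_
    rintro n ⟨hn, m, hm1, hm3, hm4⟩
    exact ⟨hn, hm1 n hm3 hm4⟩
  filter_upwards [h1] with ω hω
  apply Subset.antisymm
  · intro y hy
    rw [← h.clusterPts]
    exact hy.mono inf_le_left
  · have hcl : IsClosed {y | MapClusterPt y (atTop ⊓ 𝓟 {n | ω ∈ A n}) u} :=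
      isClosed_setOfPred_clusterPt
    refine hD3.trans (closure_minimal ?_ hcl)
    intro y hy
    rw [mem_ofPred_eq, mapClusterPt_iff_frequently]
    intro s hs
    obtain ⟨ε, hε, hεs⟩ := Metric.mem_nhds_iff.1 hs
    obtain ⟨j, hj⟩ := exists_nat_one_div_lt hε
    refine (hω y hy j).mono fun k hk => hεs ?_
    rw [Metric.mem_ball, Real.dist_eq]
    exact hk.trans hj

end Pool.Agent.Q213.GD
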