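import Pool.Agent.Q213.GD.Random
import Pool.Agent.Q213.GD.Kiss

set_option autoImplicit false

/-! Random sparse sets of indices decide convergence. -/

open MeasureTheory Set Filter ProbabilityTheory
open scoped Topology Uniformity

namespace Pool.Agent.Q213.GD

variable {Ω : Type*} [MeasurableSpace Ω] {P : Measure Ω} [IsProbabilityMeasure P] {A : ℕ → Set Ω}

theorem random_decides {u : ℕ → ℝ} {a b : ℝ} (ha : ∀ n, a ≤ u n) (hb : ∀ n, u n ≤ b)
    (h : ∀ᵐ ω ∂P, {y | MapClusterPt y (atTop ⊓ 𝓟 {n | ω ∈ A n}) u} =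
      {y | MapClusterPt y atTop u}) :
    (∃ L : ℝ, Tendsto u atTop (𝓝 L)) ↔
      P {ω | ∃ L : ℝ, Tendsto u (atTop ⊓ 𝓟 {n | ω ∈ A n}) (𝓝 L)} ≠ 0 := by
  constructor
  · rintro ⟨L, hL⟩ h0
    have h1 : P univ = 0 := by
      refine measure_mono_null (fun ω _ => ?_) h0
      exact ⟨L, hL.mono_left inf_le_left⟩
    rw [measure_univ] at h1
    exact one_ne_zero h1
  · intro hne
    by_contra hcon
    apply hne
    rw [ae_iff] at h
    refine measure_mono_null ?_ h
    rintro ω ⟨L, hL⟩ hP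
    apply hcon
    have hsing : {y | MapClusterPt y (atTop ⊓ 𝓟 {n | ω ∈ A n}) u} ⊆ {L} := by
      intro y hy
      have : ClusterPt y (𝓝 L) := ClusterPt.mono hy hL
      exact (eq_of_nhds_neBot this)
    rw [hP] at hsing
    exact ⟨L, tendsto_of_single ha hb hsing⟩

end Pool.Agent.Q213.GD
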